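import Mathlib
import Pool.Agent.N251.GA.Leaves

/-!
# The arithmetic data for the Gaussian integers
-/

set_option autoImplicit false

namespace Pool.Agent.N433.GA.Gauss

open Pool.Agent.N251.GA

/-- the normalised prime divisors -/
def Sn (n : GaussianInt) : Set GaussianInt :=
  {Q : GaussianInt | Prime Q ∧ Q ∣ n ∧ (0 < Q.re ∧ 0 ≤ Q.im)}

/-- the absolute value -/
noncomputable def ab (x : GaussianInt) : ℝ := ‖GaussianInt.toComplex x‖

theorem ab_sq (x : GaussianInt) : ab x ^ 2 = (x.norm : ℝ) := by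
  unfold ab
  rw [Complex.sq_norm, GaussianInt.intCast_real_norm]

theorem ab_mul (x y : GaussianInt) : ab (x * y) = ab x * ab y := by
  unfold ab
  rw [map_mul, norm_mul]

theorem ab_nonneg (x : GaussianInt) : 0 ≤ ab x := norm_nonneg _

theorem one_le_ab (x : GaussianInt) (hx : x ≠ 0) : 1 ≤ ab x := by
  have h1 : (1 : ℤ) ≤ x.norm := GaussianInt.norm_pos.2 hx
  have h2 : (1 : ℝ) ≤ ab x ^ 2 := by
    rw [ab_sq]
    exact_mod_cast h1
  nlinarith [ab_nonneg x]

theorem ab_le_of_dvd {x y : GaussianInt} (hy : y ≠ 0) (h : x ∣ y) : ab x ≤ ab y := by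
  obtain ⟨z, rfl⟩ := h
  rw [ab_mul]
  have h1 := one_le_ab z (right_ne_zero_of_mul hy)
  nlinarith [ab_nonneg x]

theorem ab_prod (s : Finset GaussianInt) : ab (∏ Q ∈ s, Q) = ∏ Q ∈ s, ab Q := by
  unfold ab
  rw [map_prod, norm_prod]

theorem finite_Sn (n : GaussianInt) (hn : n ≠ 0) : (Sn n).Finite := by
  have h1 : (Set.Icc (-n.norm) n.norm ×ˢ Set.Icc (-n.norm) n.norm : Set (ℤ × ℤ)).Finite :=
    (Set.finite_Icc _ _).prod (Set.finite_Icc _ _)
  refine (h1.image fun p : ℤ × ℤ => (⟨p.1, p.2⟩ : GaussianInt)).subset ?_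
  intro Q hQ
  obtain ⟨-, ⟨z, hz⟩, -⟩ := hQ
  have h2 : n.norm = Q.norm * z.norm := by rw [hz, Zsqrtd.norm_mul]
  have h3 : 0 < n.norm := GaussianInt.norm_pos.2 hn
  have hQ0 : 0 ≤ Q.norm := GaussianInt.norm_nonneg Q
  have hz0 : 0 ≤ z.norm := GaussianInt.norm_nonneg z
  have h4 : Q.norm ≤ n.norm := by
    have hz1 : 1 ≤ z.norm := by
      by_contra hc
      have : z.norm = 0 := by omega
      rw [this, mul_zero] at h2
      omega
    nlinarith
  have h5 : Q.norm = Q.re * Q.re + Q.im * Q.im := by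
    rw [Zsqrtd.norm_def]; ring
  rw [h5] at h4
  refine ⟨(Q.re, Q.im), ?_, rfl⟩
  simp only [Set.mem_prod, Set.mem_Icc]
  have h6 : ∀ a b : ℤ, 0 < n.norm → a * a + b * b ≤ n.norm → -n.norm ≤ a ∧ a ≤ n.norm := by
    intro a b h h'
    constructor
    · by_contra hc
      push Not at hc
      nlinarith [mul_self_nonneg b]
    · by_contra hc
      push Not at hc
      nlinarith [mul_self_nonneg b]
  exact ⟨h6 _ _ h3 h4, h6 _ Q.re h3 (by linarith)⟩

theorem unit_aux (a b p q : ℤ) (h : a * a + b * b = 1) (hp : 0 < p) (hq : 0 ≤ q)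
    (h2 : 0 < p * a - q * b) (h3 : 0 ≤ p * b + q * a) : a = 1 ∧ b = 0 := by
  have h5 : a ≤ 1 := by nlinarith [mul_self_nonneg b, mul_self_nonneg (a - 1)]
  have h6 : -1 ≤ a := by nlinarith [mul_self_nonneg b, mul_self_nonneg (a + 1)]
  have h7 : b ≤ 1 := by nlinarith [mul_self_nonneg a, mul_self_nonneg (b - 1)]
  have h8 : -1 ≤ b := by nlinarith [mul_self_nonneg a, mul_self_nonneg (b + 1)]
  interval_cases a <;> interval_cases b <;> first | omega | (exfalso; omega)

theorem eq_of_assoc {Q Q' : GaussianInt} (h : Associated Q Q') (hQ : 0 < Q.re ∧ 0 ≤ Q.im)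
    (hQ' : 0 < Q'.re ∧ 0 ≤ Q'.im) : Q = Q' := by
  obtain ⟨u, rfl⟩ := h
  have h1 : (u : GaussianInt).norm = 1 := by
    have h2 := (Zsqrtd.norm_eq_one_iff (d := -1) (x := (u : GaussianInt))).2 u.isUnit
    have h3 := GaussianInt.norm_nonneg (u : GaussianInt)
    omega
  obtain ⟨v, hv⟩ : ∃ v : GaussianInt, v = (u : GaussianInt) := ⟨_, rfl⟩
  rw [← hv] at h1 hQ' ⊢
  rw [Zsqrtd.norm_def] at h1
  have hre : (Q * v).re = Q.re * v.re - Q.im * v.im := by
    rw [Zsqrtd.re_mul]; ring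
  have him : (Q * v).im = Q.re * v.im + Q.im * v.re := by
    rw [Zsqrtd.im_mul]
  rw [hre, him] at hQ'
  have h4 : v.re * v.re + v.im * v.im = 1 := by linarith
  have h9 : v.re = 1 ∧ v.im = 0 :=
    unit_aux v.re v.im Q.re Q.im h4 hQ.1 hQ.2 hQ'.1 (by linarith [hQ'.2])
  have h10 : v = 1 := by
    ext
    · rw [h9.1]; rfl
    · rw [h9.2]; rfl
  rw [h10, mul_one]

theorem prod_dvd (s : Finset GaussianInt) : ∀ n : GaussianInt, (∀ Q ∈ s, Q ∈ Sn n) →
    ∏ Q ∈ s, Q ∣ n := by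
  classical
  induction s using Finset.induction_on with
  | empty => intro n _; simp
  | insert Q s hQs ih =>
    intro n hn
    rw [Finset.prod_insert hQs]
    obtain ⟨hQp, ⟨z, hz⟩, hQn⟩ := hn Q (Finset.mem_insert_self _ _)
    rw [hz]
    apply mul_dvd_mul_left
    apply ih
    intro Q' hQ'
    obtain ⟨hp, hd, hn'⟩ := hn Q' (Finset.mem_insert_of_mem hQ')
    refine ⟨hp, ?_, hn'⟩
    rw [hz] at hd
    rcases hp.dvd_or_dvd hd with h | h
    · exfalso
      have h1 : Associated Q' Q := hp.associated_of_dvd hQp h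
      exact hQs (eq_of_assoc h1 hn' hQn ▸ hQ')
    · exact h

theorem radG_eq (n : GaussianInt) (hn : n ≠ 0) :
    radG n = ∏ Q ∈ (finite_Sn n hn).toFinset, ab Q :=
  finprod_mem_eq_finite_toFinset_prod _ (finite_Sn n hn)

theorem one_le_prod {s : Finset GaussianInt} (hs : ∀ Q ∈ s, 1 ≤ ab Q) : 1 ≤ ∏ Q ∈ s, ab Q := by
  classical
  induction s using Finset.induction_on with
  | empty => simp
  | insert Q s hQs ih =>
    rw [Finset.prod_insert hQs]
    have h1 := hs Q (Finset.mem_insert_self _ _)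
    have h2 := ih fun Q' h => hs Q' (Finset.mem_insert_of_mem h)
    nlinarith

theorem prod_mono {s t : Finset GaussianInt} (hst : s ⊆ t) (ht : ∀ Q ∈ t, 1 ≤ ab Q) :
    ∏ Q ∈ s, ab Q ≤ ∏ Q ∈ t, ab Q := by
  classical
  rw [← Finset.prod_sdiff hst]
  have h1 := one_le_prod (s := t \ s) fun Q h => ht Q (Finset.mem_sdiff.1 h).1
  have h2 := one_le_prod (s := s) fun Q h => ht Q (hst h)
  nlinarith

theorem mem_ab {n : GaussianInt} (hn : n ≠ 0) : ∀ Q ∈ (finite_Sn n hn).toFinset, 1 ≤ ab Q := by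
  intro Q hQ
  rw [Set.Finite.mem_toFinset] at hQ
  exact one_le_ab Q hQ.1.ne_zero

theorem exists_idem {M : Type} [Monoid M] [Finite M] (x : M) :
    ∃ k : ℕ, 1 ≤ k ∧ x ^ k * x ^ k = x ^ k := by
  obtain ⟨i, j, hij, h⟩ : ∃ i j : ℕ, i < j ∧ x ^ i = x ^ j := by
    obtain ⟨i, j, hne, h⟩ := Finite.exists_ne_map_eq_of_infinite (fun i : ℕ => x ^ i)
    rcases lt_or_gt_of_ne hne with h1 | h1
    · exact ⟨i, j, h1, h⟩
    · exact ⟨j, i, h1, h.symm⟩
  obtain ⟨p, rfl⟩ := Nat.exists_eq_add_of_lt hij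
  have h1 : ∀ m t : ℕ, i ≤ m → x ^ (m + t * (p + 1)) = x ^ m := by
    intro m t hm
    induction t with
    | zero => rw [zero_mul, add_zero]
    | succ t ih =>
      obtain ⟨c, rfl⟩ := Nat.exists_eq_add_of_le hm
      have e1 : i + c + (t + 1) * (p + 1) = (i + p + 1) + (c + t * (p + 1)) := by ring
      have e2 : i + (c + t * (p + 1)) = i + c + t * (p + 1) := by ring
      rw [e1, pow_add, ← h, ← pow_add, e2, ih]
  refine ⟨(i + 1) * (p + 1), Nat.mul_pos (Nat.succ_pos _) (Nat.succ_pos _), ?_⟩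
  rw [← pow_add]
  exact h1 _ (i + 1) (by nlinarith)

theorem exists_idem_all (M : Type) [Monoid M] [Finite M] :
    ∃ k : ℕ, 1 ≤ k ∧ ∀ x : M, x ^ k * x ^ k = x ^ k := by
  classical
  have := Fintype.ofFinite M
  choose f hf1 hf2 using fun x : M => exists_idem x
  refine ⟨∏ x, f x, Nat.succ_le_of_lt (Finset.prod_pos fun x _ => hf1 x), fun x => ?_⟩
  obtain ⟨c, hc⟩ := Finset.dvd_prod_of_mem f (Finset.mem_univ x)
  rw [hc, pow_mul]
  have h1 : IsIdempotentElem (x ^ f x) := hf2 x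
  exact h1.pow c

theorem finite_quot (N : ℕ) (hN : N ≠ 0) :
    Finite (GaussianInt ⧸ Ideal.span {(N : GaussianInt)}) := by
  have : NeZero N := ⟨hN⟩
  have hf : Function.Injective fun q : GaussianInt ⧸ Ideal.span {(N : GaussianInt)} =>
      (((Quotient.out q : GaussianInt).re : ZMod N), ((Quotient.out q : GaussianInt).im : ZMod N)) := by
    intro q q' h
    rw [Prod.mk.injEq, ZMod.intCast_eq_intCast_iff_dvd_sub, ZMod.intCast_eq_intCast_iff_dvd_sub] at h
    have h1 : Ideal.Quotient.mk (Ideal.span {(N : GaussianInt)}) (Quotient.out q) = q :=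
      Quotient.out_eq q
    have h2 : Ideal.Quotient.mk (Ideal.span {(N : GaussianInt)}) (Quotient.out q') = q' :=
      Quotient.out_eq q'
    rw [← h1, ← h2, eq_comm, Ideal.Quotient.eq, Ideal.mem_span_singleton]
    have h3 : ((N : ℤ) : GaussianInt) ∣ Quotient.out q' - Quotient.out q := by
      rw [Zsqrtd.intCast_dvd]
      exact ⟨by simpa using h.1, by simpa using h.2⟩
    simpa using h3
  exact Finite.of_injective _ hf

theorem t : LeafGauss := by
  classical
  refine ⟨one_le_ab, ?_, ?_, ?_, ?_, ?_⟩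
  · intro x
    unfold radG
    refine finprod_mem_induction (fun r : ℝ => 1 ≤ r) le_rfl ?_ ?_
    · intro a b ha hb
      nlinarith
    · intro Q hQ
      exact one_le_ab Q hQ.1.ne_zero
  · intro x hx
    rw [radG_eq x hx, ← ab_prod]
    exact ab_le_of_dvd hx (prod_dvd _ x fun Q hQ => by rwa [Set.Finite.mem_toFinset] at hQ)
  · intro x y hx hy
    rw [radG_eq x hx, radG_eq y hy, radG_eq (x * y) (mul_ne_zero hx hy),
      ← Finset.prod_union_inter]
    have h1 : (finite_Sn (x * y) (mul_ne_zero hx hy)).toFinset ⊆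
        (finite_Sn x hx).toFinset ∪ (finite_Sn y hy).toFinset := by
      intro Q hQ
      rw [Finset.mem_union, Set.Finite.mem_toFinset, Set.Finite.mem_toFinset]
      rw [Set.Finite.mem_toFinset] at hQ
      obtain ⟨hp, hd, hn⟩ := hQ
      rcases hp.dvd_or_dvd hd with h | h
      · exact Or.inl ⟨hp, h, hn⟩
      · exact Or.inr ⟨hp, h, hn⟩
    have h2 : ∀ Q ∈ (finite_Sn x hx).toFinset ∪ (finite_Sn y hy).toFinset, 1 ≤ ab Q := by
      intro Q hQ
      rcases Finset.mem_union.1 hQ with h | h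
      · exact mem_ab hx Q h
      · exact mem_ab hy Q h
    have h3 := prod_mono h1 h2
    have h4 := one_le_prod (s := (finite_Sn x hx).toFinset ∩ (finite_Sn y hy).toFinset)
      fun Q h => mem_ab hx Q (Finset.mem_inter.1 h).1
    have h5 := one_le_prod h2
    nlinarith
  · intro x y k hy hd
    have hx : x ≠ 0 := by
      rintro rfl
      exact pow_ne_zero k hy (zero_dvd_iff.1 hd)
    rw [radG_eq x hx, radG_eq y hy]
    refine prod_mono ?_ (mem_ab hy)
    intro Q hQ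
    rw [Set.Finite.mem_toFinset] at hQ ⊢
    exact ⟨hQ.1, hQ.1.dvd_of_dvd_pow (hQ.2.1.trans hd), hQ.2.2⟩
  · intro N hN
    have := finite_quot N hN
    obtain ⟨k, hk, h⟩ := exists_idem_all (GaussianInt ⧸ Ideal.span {(N : GaussianInt)})
    refine ⟨k, hk, fun x => ?_⟩
    have h1 := h (Ideal.Quotient.mk _ x)
    rw [← map_pow, ← map_mul, Ideal.Quotient.eq, Ideal.mem_span_singleton] at h1
    rw [mul_sub, mul_one]
    exact h1

end Pool.Agent.N433.GA.Gauss
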